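import Mathlib
import Pool.Agent.Q11.RG.Final

set_option autoImplicit false

namespace Pool.Agent.Results.MP_1155ce_an.GreenVertices

open SimpleGraph Pool.Agent.Q11.RG

universe u

/-- Let `r > g ≥ 2`, let `Ξ : T → K_{r,g}` be the universal cover (`T` is a tree and `Ξ` maps the
neighbours of each vertex `x` bijectively onto the neighbours of `Ξ x`), and let `b`, `a > 0` be a
Jacobi matrix on `K_{r,g}`. If `u ∈ ℓ²(T)` satisfies `H u = lam u` for the lift `H`, then `u`
vanishes at every green vertex. Here `wt a` is the weight of an edge: `a i j` for the edge between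
the red vertex `i` and the green vertex `j`. -/
theorem result (r g : ℕ) (hg : 2 ≤ g) (hrg : g < r)
    (V : Type u) (T : SimpleGraph V) [T.LocallyFinite] (hT : T.IsTree)
    (Ξ : V → Fin r ⊕ Fin g)
    (hΞ : ∀ x, Set.BijOn Ξ (T.neighborSet x)
      ((completeBipartiteGraph (Fin r) (Fin g)).neighborSet (Ξ x)))
    (b : Fin r ⊕ Fin g → ℝ) (a : Fin r → Fin g → ℝ) (ha : ∀ i j, 0 < a i j)
    (lam : ℝ) (u : V → ℂ) (hu : Memℓp u 2)
    (heig : ∀ x, (b (Ξ x) : ℂ) * u x
      + ∑ y ∈ T.neighborFinset x, (wt a (Ξ x) (Ξ y) : ℂ) * u y = (lam : ℂ) * u x)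
    (x : V) (j : Fin g) (hx : Ξ x = Sum.inr j) : u x = 0 := by
  have hs : Summable fun z => ‖u z‖ ^ 2 := by
    have h := (memℓp_gen_iff (p := 2) (by norm_num)).1 hu
    refine h.congr fun z => ?_
    simp
  have hre : IsEig T (fun x y => wt a (Ξ x) (Ξ y)) (fun x => lam - b (Ξ x))
      (fun z => (u z).re) := by
    refine ⟨Summable.of_nonneg_of_le (fun z => sq_nonneg _) (fun z => ?_) hs, ?_⟩
    · rw [← sq_abs ((u z).re)]
      exact pow_le_pow_left₀ (abs_nonneg _) (Complex.abs_re_le_norm _) 2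
    · intro z
      have h := congrArg Complex.re (heig z)
      rw [Complex.add_re, Complex.re_ofReal_mul, Complex.re_sum, Complex.re_ofReal_mul] at h
      have h2 : ∀ y ∈ T.neighborFinset z, ((wt a (Ξ z) (Ξ y) : ℂ) * u y).re
          = wt a (Ξ z) (Ξ y) * (u y).re := fun y _ => Complex.re_ofReal_mul _ _
      rw [Finset.sum_congr rfl h2] at h
      rw [Lop]
      linarith
  have him : IsEig T (fun x y => wt a (Ξ x) (Ξ y)) (fun x => lam - b (Ξ x))
      (fun z => (u z).im) := by
    refine ⟨Summable.of_nonneg_of_le (fun z => sq_nonneg _) (fun z => ?_) hs, ?_⟩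
    · rw [← sq_abs ((u z).im)]
      exact pow_le_pow_left₀ (abs_nonneg _) (Complex.abs_im_le_norm _) 2
    · intro z
      have h := congrArg Complex.im (heig z)
      rw [Complex.add_im, Complex.im_ofReal_mul, Complex.im_sum, Complex.im_ofReal_mul] at h
      have h2 : ∀ y ∈ T.neighborFinset z, ((wt a (Ξ z) (Ξ y) : ℂ) * u y).im
          = wt a (Ξ z) (Ξ y) * (u y).im := fun y _ => Complex.im_ofReal_mul _ _
      rw [Finset.sum_congr rfl h2] at h
      rw [Lop]
      linarith
  apply Complex.ext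
  · exact real_case hg hrg hT hΞ a ha (fun c => lam - b c) hre hx
  · exact real_case hg hrg hT hΞ a ha (fun c => lam - b c) him hx

end Pool.Agent.Results.MP_1155ce_an.GreenVertices
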